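import Mathlib

namespace Pool.Agent.Results.MP_c8d5ab_co.Yes

open Filter

variable {A : Type}

/-- The factor of `x` of length `n` that starts at position `s`. -/
def fac (x : ℕ → A) (s n : ℕ) : List A := (List.range n).map fun i => x (s + i)

/-- `v` occurs in `w` at position `i`. -/
def Occ (v w : List A) (i : ℕ) : Prop := i + v.length ≤ w.length ∧ (w.drop i).take v.length = v

/-- Closed words. -/
def Closed (w : List A) : Prop :=
  w.length ≤ 1 ∨ ∃ v, v ≠ w ∧ v.length ≤ w.length ∧
    ∀ i, Occ v w i ↔ i = 0 ∨ i = w.length - v.length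

/-- The closed complexity. -/
noncomputable def cl (x : ℕ → A) (n : ℕ) : ℕ := {w | (∃ s, w = fac x s n) ∧ Closed w}.ncard

def Aperiodic (x : ℕ → A) : Prop := ¬ ∃ p N, 0 < p ∧ ∀ i, N ≤ i → x (i + p) = x i

/-- `φ^m(a)`. -/
def iter (φ : A → List A) (a : A) (m : ℕ) : List A := (fun w => w.flatMap φ)^[m] [a]

def PureMorphic (x : ℕ → A) : Prop :=
  ∃ (φ : A → List A) (a : A), (φ a).head? = some a ∧
    Tendsto (fun m => (iter φ a m).length) atTop atTop ∧
    ∀ m, iter φ a m = fac x 0 (iter φ a m).length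

theorem fac_len (x : ℕ → A) (s n : ℕ) : (fac x s n).length = n := by simp [fac]

theorem fac_sub (x : ℕ → A) (s n i l : ℕ) (h : i + l ≤ n) :
    ((fac x s n).drop i).take l = fac x (s + i) l := by
  apply List.ext_getElem
  · simp [fac]; omega
  · intro j _ _
    simp [fac, add_assoc]

theorem fac_eq {x : ℕ → A} {s t l : ℕ} : fac x s l = fac x t l ↔ ∀ j < l, x (s + j) = x (t + j) := by
  simp [fac]

theorem fac_add (x : ℕ → A) (s m n : ℕ) : fac x s (m + n) = fac x s m ++ fac x (s + m) n := by
  simp [fac, List.range_add, add_assoc, Function.comp_def]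

theorem closed_idx {x : ℕ → A} {s n : ℕ} (hn : 2 ≤ n) (h : Closed (fac x s n)) :
    ∃ l r, 1 ≤ l ∧ 1 ≤ r ∧ l + r = n ∧ (∀ j < l, x (s + j) = x (s + r + j)) ∧
      ∀ i, 0 < i → i < r → ¬ ∀ j < l, x (s + j) = x (s + i + j) := by
  rcases h with h | ⟨v, h1, h2, h3⟩
  · rw [fac_len] at h; omega
  rw [fac_len] at h2 h3
  have h0 := ((h3 0).mpr (Or.inl rfl)).2
  rw [fac_sub _ _ _ _ _ (by omega), add_zero] at h0
  generalize v.length = l at *
  subst h0
  have key : ∀ i, i + l ≤ n → (Occ (fac x s l) (fac x s n) i ↔ ∀ j < l, x (s + j) = x (s + i + j)) := by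
    intro i hi
    unfold Occ
    rw [fac_len, fac_len, fac_sub _ _ _ _ _ hi, eq_comm, fac_eq]
    exact and_iff_right hi
  have hl : l ≠ n := fun e => h1 (by rw [e])
  have no : ∀ i, 0 < i → i < n - l → ¬ ∀ j < l, x (s + j) = x (s + i + j) := by
    intro i a b c
    have := (h3 i).mp ((key i (by omega)).mpr c)
    omega
  refine ⟨l, n - l, ?_, by omega, by omega, (key _ (by omega)).mp ((h3 _).mpr (Or.inr rfl)), no⟩
  by_contra hc
  exact no 1 one_pos (by omega) (fun j hj => by omega)

theorem closed_rep (n : ℕ) (b : A) : Closed (List.replicate n b) := by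
  rcases Nat.eq_zero_or_pos n with rfl | hn
  · exact Or.inl (by simp)
  refine Or.inr ⟨List.replicate (n - 1) b, fun e => ?_, by simp, fun i => ?_⟩
  · have := congrArg List.length e
    simp at this
    omega
  · simp only [Occ, List.length_replicate, List.drop_replicate, List.take_replicate,
      List.replicate_inj, or_true, and_true]
    omega

theorem lim {x : ℕ → A} {k : ℕ} (h1 : ∀ n, 1 ≤ n → k ≤ cl x n) (h2 : ∀ N, ∃ n, N ≤ n ∧ cl x n ≤ k) :
    liminf (fun n => (cl x n : ℕ∞)) atTop = k := by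
  apply le_antisymm
  · refine liminf_le_of_frequently_le' (frequently_atTop.mpr fun N => ?_)
    obtain ⟨n, a, b⟩ := h2 N
    exact ⟨n, a, by exact_mod_cast b⟩
  · refine le_liminf_of_le (by isBoundedDefault) ?_
    filter_upwards [eventually_ge_atTop 1] with n hn
    exact_mod_cast h1 n hn

def q : ℕ → Bool
  | 0 => true
  | n + 1 => if (n + 1) % 2 = 0 then decide ((n + 1) % 4 = 0) else q ((n + 1) / 2)

theorem q_ev (i : ℕ) : q (2 * i) = decide (i % 2 = 0) := by
  rcases i with _ | i
  · simp [q]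
  · rw [show 2 * (i + 1) = 2 * i + 1 + 1 by ring, q, if_pos (by omega)]
    simp only [decide_eq_decide]
    omega

theorem q_od (i : ℕ) : q (2 * i + 1) = q i := by
  rw [q, if_neg (by omega)]
  congr 1
  omega

def y (i : ℕ) : Bool × Bool := (decide (i % 2 = 0), q i)

def psi (z : Bool × Bool) : List (Bool × Bool) := [(true, z.1), (false, z.2)]

theorem q_dvd (e : ℕ) : ∀ s r, r % 2 = 0 → (∀ j < 2 ^ e, q (s + j) = q (s + r + j)) →
    2 ^ (e + 1) ∣ r := by
  induction e with
  | zero => intro s r h _; omega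
  | succ e ih =>
    intro s r h hq
    obtain ⟨r, rfl⟩ : ∃ r', r = 2 * r' := ⟨r / 2, by omega⟩
    have p : 0 < 2 ^ e := by positivity
    rw [pow_succ] at hq
    have a := hq (s % 2) (by omega)
    rw [show s + s % 2 = 2 * ((s + 1) / 2) by omega,
      show s + 2 * r + s % 2 = 2 * ((s + 1) / 2 + r) by omega, q_ev, q_ev, decide_eq_decide] at a
    rw [pow_succ, mul_comm]
    refine Nat.mul_dvd_mul_left 2 (ih (s / 2) r (by omega) fun j hj => ?_)
    have b := hq (2 * j + 1 - s % 2) (by omega)
    rwa [show s + (2 * j + 1 - s % 2) = 2 * (s / 2 + j) + 1 by omega,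
      show s + 2 * r + (2 * j + 1 - s % 2) = 2 * (s / 2 + r + j) + 1 by omega, q_od, q_od] at b

theorem y_dvd {e s r l : ℕ} (hl : 2 ^ e ≤ l) (h : ∀ j < l, y (s + j) = y (s + r + j)) :
    2 ^ (e + 1) ∣ r := by
  have p : 0 < 2 ^ e := by positivity
  have a := congrArg Prod.fst (h 0 (by omega))
  simp only [y, decide_eq_decide] at a
  exact q_dvd e s r (by omega) fun j hj => congrArg Prod.snd (h j (by omega))

theorem y_flat (n : ℕ) : (fac y 0 n).flatMap psi = fac y 0 (2 * n) := by
  induction n with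
  | zero => rfl
  | succ n ih =>
    rw [fac_add, List.flatMap_append, ih, show 2 * (n + 1) = 2 * n + 2 by ring, fac_add]
    simp [fac, psi, y, List.range_succ, q_ev, q_od]

theorem y_iter (m : ℕ) : iter psi (true, true) m = fac y 0 (2 ^ m) := by
  induction m with
  | zero => simp [iter, fac, y, q]
  | succ m ih =>
    unfold iter at ih ⊢
    rw [Function.iterate_succ_apply', ih, y_flat, pow_succ, mul_comm]

theorem zero_case : Aperiodic y ∧ PureMorphic y ∧ liminf (fun n => (cl y n : ℕ∞)) atTop = (0 : ℕ) := by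
  refine ⟨?_, ⟨psi, (true, true), rfl, ?_, fun m => ?_⟩, lim (fun _ _ => Nat.zero_le _) fun N => ?_⟩
  · rintro ⟨p, N, hp, h⟩
    have := y_dvd (e := p) (s := N) (r := p) le_rfl fun j _ => by
      rw [← h (N + j) (by omega)]; congr 1; omega
    have a := Nat.le_of_dvd hp this
    have b : p + 1 < 2 ^ (p + 1) := Nat.lt_two_pow_self
    omega
  · simp only [y_iter, fac_len]
    exact tendsto_pow_atTop_atTop_of_one_lt one_lt_two
  · rw [y_iter, fac_len]
  · have b : N + 1 < 2 ^ (N + 1) := Nat.lt_two_pow_self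
    refine ⟨2 ^ (N + 1), by omega, le_of_eq ?_⟩
    unfold cl
    rw [Set.eq_empty_of_forall_notMem (s := {w | _ ∧ Closed w}), Set.ncard_empty]
    rintro w ⟨⟨s, rfl⟩, hc⟩
    obtain ⟨l, r, h1, h2, h3, h4, -⟩ := closed_idx (by omega) hc
    have c := y_dvd (Nat.pow_log_le_self 2 (by omega : l ≠ 0)) h4
    have d := Nat.lt_pow_succ_log_self one_lt_two l
    have e : Nat.log 2 l < N + 1 := Nat.log_lt_of_lt_pow (by omega) (by omega)
    have f : 2 ^ (Nat.log 2 l + 1) ∣ l + r := h3 ▸ pow_dvd_pow 2 e
    have := Nat.le_of_dvd h1 ((Nat.dvd_add_left c).mp f)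
    exact absurd this (not_le.mpr d)

def S : ℕ → ℕ
  | 0 => 1
  | t + 1 => S t + 6 ^ t + 1

theorem S_mono : StrictMono S := strictMono_nat_of_lt_succ fun t => by
  rw [S]; exact Nat.lt_succ_of_le (Nat.le_add_right _ _)

theorem S_le (t : ℕ) : S t ≤ 2 * 6 ^ t := by
  induction t with
  | zero => simp [S]
  | succ t ih =>
    have : 0 < 6 ^ t := by positivity
    rw [S, pow_succ]; omega

theorem S_ex (m : ℕ) (hm : 1 ≤ m) : ∃ t j, j ≤ 6 ^ t ∧ m = S t + j := by
  induction m, hm using Nat.le_induction with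
  | base => exact ⟨0, 0, by simp, rfl⟩
  | succ m _ ih =>
    obtain ⟨t, j, h, rfl⟩ := ih
    rcases h.eq_or_lt with rfl | h
    · exact ⟨t + 1, 0, by simp, rfl⟩
    · exact ⟨t, j + 1, h, rfl⟩

def phi (k : ℕ) : Bool ⊕ ZMod k → List (Bool ⊕ ZMod k)
  | .inl true => [.inl true, .inr 0, .inl false]
  | .inl false => [.inl false]
  | .inr i => List.replicate 6 (.inr (i + 1))

theorem it_succ (k m : ℕ) : iter (phi k) (.inl true) (m + 1) =
    iter (phi k) (.inl true) m ++ (List.replicate (6 ^ m) (.inr (m : ZMod k)) ++ [.inl false]) := by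
  induction m with
  | zero => simp [iter, phi]
  | succ m ih =>
    have e : ∀ m, iter (phi k) (.inl true) (m + 1) = (iter (phi k) (.inl true) m).flatMap (phi k) :=
      fun m => Function.iterate_succ_apply' _ _ _
    rw [e (m + 1)]
    conv_lhs => rw [ih]
    rw [List.flatMap_append, ← e, List.flatMap_append, List.flatMap_replicate]
    simp only [phi, List.flatten_replicate_replicate]
    simp [phi, pow_succ]

theorem it_len (k m : ℕ) : (iter (phi k) (.inl true) m).length = S m := by
  induction m with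
  | zero => rfl
  | succ m ih => rw [it_succ, S]; simp [ih, add_assoc]

def x (k i : ℕ) : Bool ⊕ ZMod k := (iter (phi k) (.inl true) i).getD i (.inl true)

theorem it_get (k : ℕ) {i m n : ℕ} (hi : i < S m) (h : m ≤ n) :
    (iter (phi k) (.inl true) n).getD i (.inl true) =
      (iter (phi k) (.inl true) m).getD i (.inl true) := by
  induction n, h using Nat.le_induction with
  | base => rfl
  | succ n h ih =>
    rw [it_succ, List.getD_append _ _ _ _ (by rw [it_len]; exact hi.trans_le (S_mono.monotone h)), ih]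

theorem lt_S (i : ℕ) : i < S i := by
  induction i with
  | zero => simp [S]
  | succ i ih => exact Nat.lt_of_le_of_lt ih (S_mono (Nat.lt_succ_self i))

theorem x_get (k : ℕ) {i m : ℕ} (hi : i < S m) :
    x k i = (iter (phi k) (.inl true) m).getD i (.inl true) := by
  rcases le_total i m with h | h
  · exact (it_get k (lt_S i) h).symm
  · exact it_get k hi h

theorem x_b (k : ℕ) {t j : ℕ} (h : j < 6 ^ t) : x k (S t + j) = .inr (t : ZMod k) := by
  rw [x_get k (m := t + 1) (by rw [S]; omega), it_succ,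
    List.getD_append_right _ _ _ _ (by rw [it_len]; omega), it_len,
    List.getD_append _ _ _ _ (by simp; omega)]
  simp [h]

theorem x_c (k t : ℕ) : x k (S t + 6 ^ t) = .inl false := by
  rw [x_get k (m := t + 1) (Nat.lt_succ_self _), it_succ,
    List.getD_append_right _ _ _ _ (by rw [it_len]; exact Nat.le_add_right _ _), it_len,
    List.getD_append_right _ _ _ _ (by simp)]
  simp

theorem gap {u T : ℕ} (h1 : 6 ^ u < 6 ^ T) (h2 : 6 ^ T < 6 * 6 ^ u) : False := by
  have a := (Nat.pow_lt_pow_iff_right (by norm_num : 1 < 6)).mp h1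
  rw [← pow_succ'] at h2
  have b := (Nat.pow_lt_pow_iff_right (by norm_num : 1 < 6)).mp h2
  omega

theorem S_step {t u : ℕ} (h : t < u) : S t + 6 ^ t + 1 ≤ S u := S_mono.monotone (Nat.succ_le_of_lt h)

theorem c_pos {k m : ℕ} (hm : 1 ≤ m) (h : ∀ b, x k m ≠ .inr b) : ∃ t, m = S t + 6 ^ t := by
  obtain ⟨t, j, hj, rfl⟩ := S_ex m hm
  rcases hj.eq_or_lt with rfl | hj
  · exact ⟨t, rfl⟩
  · exact absurd (x_b k hj) (h _)

theorem only {k s T : ℕ} (hc : Closed (fac (x k) s (6 ^ (T + 1)))) :
    ∃ b : ZMod k, fac (x k) s (6 ^ (T + 1)) = List.replicate (6 ^ (T + 1)) (.inr b) := by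
  have p6 : ∀ u, 0 < 6 ^ u := fun u => by positivity
  obtain ⟨l, r, h1, h2, h3, h4, h5⟩ := closed_idx (by have := p6 T; rw [pow_succ]; omega) hc
  have s0 : 1 ≤ s := by
    by_contra h
    obtain rfl : s = 0 := by omega
    have a := h4 0 h1
    obtain ⟨t, j, hj, e⟩ := S_ex (0 + r + 0) (by omega)
    rw [e] at a
    rcases hj.eq_or_lt with rfl | hj
    · rw [x_c] at a; cases a
    · rw [x_b k hj] at a; cases a
  obtain ⟨t, j, hj, rfl⟩ := S_ex s s0
  by_cases hA : j + l ≤ 6 ^ t
  · rcases hA.eq_or_lt with hA | hA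
    · exfalso
      obtain ⟨u, i, hi, e⟩ := S_ex (S t + j + r) (by omega)
      have nb : ∀ a < l, x k (S u + i + a) = .inr (t : ZMod k) := fun a ha => by
        rw [← e, ← h4 a ha, add_assoc, x_b k (by omega)]
      have il : i + l ≤ 6 ^ u := by
        by_contra h
        have := nb (6 ^ u - i) (by omega)
        rw [show S u + i + (6 ^ u - i) = S u + 6 ^ u by omega, x_c] at this
        cases this
      have tu : t < u := by
        by_contra h
        rcases (not_lt.mp h).eq_or_lt with rfl | h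
        · omega
        · have := S_step h
          omega
      have st := S_step tu
      have i0 : i = 0 := by
        by_contra h
        refine h5 (r - 1) (by omega) (by omega) fun a ha => ?_
        have c := nb 0 h1
        rw [add_zero, x_b k (by omega)] at c
        rw [add_assoc, x_b k (by omega), show S t + j + (r - 1) + a = S u + (i - 1 + a) by omega,
          x_b k (by omega), c]
      subst i0
      obtain ⟨u, rfl⟩ : ∃ v, u = v + 1 := ⟨u - 1, by omega⟩
      rw [S] at e
      rcases (Nat.lt_succ_iff.mp tu).eq_or_lt with rfl | tu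
      · rw [pow_succ] at h3
        omega
      · have a := S_step tu
        have b := S_le u
        have c : 6 ^ t ≤ 6 ^ u := Nat.pow_le_pow_right (by norm_num) tu.le
        have := p6 u
        exact gap (u := u) (T := T + 1) (by omega) (by omega)
    · have r1 : r = 1 := by
        by_contra h
        refine h5 1 one_pos (by omega) fun a ha => ?_
        rw [add_assoc, add_assoc, add_assoc, x_b k (by omega), x_b k (by omega)]
      refine ⟨t, List.eq_replicate_iff.mpr ⟨fac_len _ _ _, fun b hb => ?_⟩⟩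
      simp only [fac, List.mem_map, List.mem_range] at hb
      obtain ⟨a, ha, rfl⟩ := hb
      rw [add_assoc, x_b k (by omega)]
  · exfalso
    have a := h4 (6 ^ t - j) (by omega)
    rw [show S t + j + (6 ^ t - j) = S t + 6 ^ t by omega, x_c] at a
    obtain ⟨u, e⟩ := c_pos (k := k) (m := S t + j + r + (6 ^ t - j)) (by omega)
      (fun b => by rw [← a]; simp)
    have tu : t < u := by
      by_contra h
      rcases (not_lt.mp h).eq_or_lt with rfl | h
      · omega
      · have := S_step h
        omega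
    have c1 : 6 ^ (t + 1) ≤ 6 ^ u := Nat.pow_le_pow_right (by norm_num) tu
    have c2 : 6 ^ (t + 1) < 6 ^ (u + 1) := Nat.pow_lt_pow_right (by norm_num) (by omega)
    have ql : j + l ≤ 6 ^ t + 1 + 6 ^ (t + 1) := by
      by_contra h
      have b := h4 (6 ^ t - j + 1 + 6 ^ (t + 1)) (by omega)
      rw [show S t + j + (6 ^ t - j + 1 + 6 ^ (t + 1)) = S (t + 1) + 6 ^ (t + 1) by rw [S]; omega,
        show S t + j + r + (6 ^ t - j + 1 + 6 ^ (t + 1)) = S (u + 1) + 6 ^ (t + 1) by
          rw [S]; omega, x_c, x_b k c2] at b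
      cases b
    have b := S_step tu
    have c := S_le u
    have d := p6 u
    have f := lt_S t
    exact gap (u := u) (T := T + 1) (by omega) (by omega)

theorem pos_case (k : ℕ) [NeZero k] : Aperiodic (x k) ∧ PureMorphic (x k) ∧
    liminf (fun n => (cl (x k) n : ℕ∞)) atTop = k := by
  have card : ∀ n, 1 ≤ n → (Set.range fun b : ZMod k =>
      List.replicate n (Sum.inr b : Bool ⊕ ZMod k)).ncard = k := by
    intro n hn
    rw [Set.ncard_range_of_injective, Nat.card_zmod]
    intro a b h
    simpa [show n ≠ 0 by omega] using h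
  have pw : ∀ t, t < 6 ^ t := fun t => Nat.lt_pow_self (by norm_num)
  refine ⟨?_, ⟨phi k, .inl true, rfl, ?_, fun m => ?_⟩, lim (fun n hn => ?_) fun N => ?_⟩
  · rintro ⟨p, N, hp, h⟩
    have a := h (S (N + p) + 6 ^ (N + p)) (by have := lt_S (N + p); have := pw (N + p); omega)
    have b := pw (N + p + 1)
    rw [x_c, show S (N + p) + 6 ^ (N + p) + p = S (N + p + 1) + (p - 1) by rw [S]; omega,
      x_b k (by omega)] at a
    cases a
  · simp only [it_len]
    exact S_mono.tendsto_atTop
  · apply List.ext_getElem (fac_len _ _ _).symm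
    intro i h1 _
    simp only [fac, List.getElem_map, List.getElem_range, zero_add]
    rw [x_get k (m := m) (by rwa [it_len] at h1), List.getD_eq_getElem]
  · refine (card n hn).symm.le.trans (Set.ncard_le_ncard ?_ ((List.finite_length_eq _ n).subset ?_))
    · rintro w ⟨b, rfl⟩
      refine ⟨⟨S (b.val + k * n), (List.eq_replicate_iff.mpr ⟨fac_len _ _ _, fun c hc => ?_⟩).symm⟩,
        closed_rep _ _⟩
      simp only [fac, List.mem_map, List.mem_range] at hc
      obtain ⟨a, ha, rfl⟩ := hc
      have h1 := pw (b.val + k * n)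
      have h2 : n ≤ k * n := Nat.le_mul_of_pos_left n (NeZero.pos k)
      rw [x_b k (by omega)]
      simp
    · rintro w ⟨⟨s, rfl⟩, -⟩
      exact fac_len _ _ _
  · have h1 := pw (N + 1)
    refine ⟨6 ^ (N + 1), by omega, ?_⟩
    refine le_trans (Set.ncard_le_ncard ?_ (Set.finite_range _)) (card (6 ^ (N + 1)) (by omega)).le
    rintro w ⟨⟨s, rfl⟩, hc⟩
    obtain ⟨b, hb⟩ := only hc
    exact ⟨b, hb.symm⟩

theorem result (k : ℕ) : ∃ (A : Type) (_ : Fintype A) (x : ℕ → A),
    Aperiodic x ∧ PureMorphic x ∧ liminf (fun n => (cl x n : ℕ∞)) atTop = k := by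
  rcases k with _ | k
  · exact ⟨_, inferInstance, y, zero_case⟩
  · exact ⟨_, inferInstance, x (k + 1), pos_case (k + 1)⟩

end Pool.Agent.Results.MP_c8d5ab_co.Yes
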